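import Pool.Agent.Helper4.AE.St

/-!
# Project AE: module UNI (averaging over the units)
-/

set_option autoImplicit false

namespace Pool.Agent.Helper4.AE

open Finset

private theorem units_sum (n : ℕ) [NeZero n] (H : ℕ → ℝ) :
    ∑ w : (ZMod n)ˣ, H (w : ZMod n).val = ∑ j ∈ (range n).filter (fun j => Nat.Coprime j n), H j := by
  refine Finset.sum_bij (fun (w : (ZMod n)ˣ) _ => (w : ZMod n).val) ?_ ?_ ?_ ?_
  · intro w _
    rw [Finset.mem_filter, Finset.mem_range]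
    exact ⟨ZMod.val_lt _, ZMod.val_coe_unit_coprime w⟩
  · intro w _ w' _ h
    exact Units.ext (ZMod.val_injective n h)
  · intro j hj
    rw [Finset.mem_filter, Finset.mem_range] at hj
    refine ⟨ZMod.unitOfCoprime j hj.2, Finset.mem_univ _, ?_⟩
    rw [ZMod.coe_unitOfCoprime, ZMod.val_natCast, Nat.mod_eq_of_lt hj.1]
  · intro w _
    rfl

theorem hUNI : StUNI := by
  intro m _ d q F hq
  obtain ⟨n, hn⟩ : ∃ n, n = addOrderOf d := ⟨_, rfl⟩
  rw [← hn] at hq ⊢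
  have hm0 : m ≠ 0 := NeZero.ne m
  have hn0 : n ≠ 0 := by
    rintro rfl
    rw [zero_mul] at hq
    exact hm0 hq.symm
  have hq0 : q ≠ 0 := by
    rintro rfl
    rw [mul_zero] at hq
    exact hm0 hq.symm
  haveI : NeZero n := ⟨hn0⟩
  have hnm : n ∣ m := ⟨q, hq.symm⟩
  -- representation of d
  obtain ⟨j₀, hj₀⟩ : q ∣ d.val := by
    have h1 : n • d = 0 := by rw [hn]; exact addOrderOf_nsmul_eq_zero d
    have h2 : ((n * d.val : ℕ) : ZMod m) = 0 := by
      rw [Nat.cast_mul, ZMod.natCast_zmod_val, ← nsmul_eq_mul, h1]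
    rw [ZMod.natCast_eq_zero_iff] at h2
    have h3 : n * q ∣ n * d.val := by rw [hq]; exact h2
    exact Nat.dvd_of_mul_dvd_mul_left (Nat.pos_of_ne_zero hn0) h3
  have hd : d = ((q * j₀ : ℕ) : ZMod m) := by
    rw [← hj₀, ZMod.natCast_zmod_val]
  have hcop : Nat.Coprime j₀ n := by
    obtain ⟨g, hg⟩ : ∃ g, g = Nat.gcd j₀ n := ⟨_, rfl⟩
    have hg1 : g ∣ j₀ := by rw [hg]; exact Nat.gcd_dvd_left _ _
    have hg2 : g ∣ n := by rw [hg]; exact Nat.gcd_dvd_right _ _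
    obtain ⟨a, ha⟩ := hg1
    obtain ⟨b, hb⟩ := hg2
    have hg0 : 0 < g := by
      rw [hg]; exact Nat.gcd_pos_of_pos_right _ (Nat.pos_of_ne_zero hn0)
    have h1 : b • d = 0 := by
      rw [hd, nsmul_eq_mul, ← Nat.cast_mul, ZMod.natCast_eq_zero_iff, ← hq, hb, ha]
      exact ⟨a, by ring⟩
    have h2 : n ∣ b := by rw [hn]; exact addOrderOf_dvd_of_nsmul_eq_zero h1
    have hb0 : b ≠ 0 := by
      rintro rfl
      rw [mul_zero] at hb
      exact hn0 hb
    have h3 : n ≤ b := Nat.le_of_dvd (Nat.pos_of_ne_zero hb0) h2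
    have h4 : g = 1 := by
      by_contra hg1
      have h5 : 2 ≤ g := by omega
      have h6 : 2 * b ≤ g * b := Nat.mul_le_mul_right b h5
      have h7 : 0 < b := Nat.pos_of_ne_zero hb0
      omega
    rw [Nat.Coprime, ← hg, h4]
  set f : (ZMod m)ˣ →* (ZMod n)ˣ := ZMod.unitsMap hnm with hf
  have hsurj : Function.Surjective f := ZMod.unitsMap_surjective hnm
  obtain ⟨J, hJ⟩ : ∃ J : (ZMod n)ˣ, (J : ZMod n) = (j₀ : ZMod n) :=
    ⟨ZMod.unitOfCoprime j₀ hcop, ZMod.coe_unitOfCoprime _ _⟩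
  set G : (ZMod n)ˣ → ℝ := fun w => F ((q * ((w : ZMod n)).val : ℕ) : ZMod m) with hG
  -- the values
  have hval : ∀ u : (ZMod m)ˣ, F ((u : ZMod m) * d) = G (f u * J) := by
    intro u
    have h1 : (u : ZMod m) * d = ((q * ((f u * J : (ZMod n)ˣ) : ZMod n).val : ℕ) : ZMod m) := by
      have h2 : ((((u : ZMod m)).val * j₀ : ℕ) : ZMod n) = ((f u * J : (ZMod n)ˣ) : ZMod n) := by
        rw [Units.val_mul, hJ, Nat.cast_mul]
        congr 1
        rw [hf, ZMod.unitsMap_val]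
        exact ZMod.natCast_val _
      have h3 : (((f u * J : (ZMod n)ˣ) : ZMod n).val) ≡ ((u : ZMod m)).val * j₀ [MOD n] := by
        rw [← ZMod.natCast_eq_natCast_iff, ZMod.natCast_zmod_val, h2]
      have h4 := h3.mul_left' q
      have h5 : (q * (((f u * J : (ZMod n)ˣ) : ZMod n).val)) ≡ q * (((u : ZMod m)).val * j₀) [MOD m] := by
        have hqn : q * n = m := by rw [mul_comm]; exact hq
        rw [hqn] at h4
        exact h4
      rw [← ZMod.natCast_eq_natCast_iff] at h5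
      rw [h5, hd]
      push_cast
      rw [ZMod.natCast_zmod_val]
      ring
    rw [h1]
  have e1 : ∑ u : (ZMod m)ˣ, F ((u : ZMod m) * d) = ∑ u : (ZMod m)ˣ, G (f u * J) :=
    Finset.sum_congr rfl fun u _ => hval u
  have e2 : ∀ w' : (ZMod n)ˣ, ∑ u : (ZMod m)ˣ, G (w' * (f u * J)) = ∑ u : (ZMod m)ˣ, G (f u * J) := by
    intro w'
    obtain ⟨u', hu'⟩ := hsurj w'
    have h1 := Equiv.sum_comp (Equiv.mulLeft u') (fun u => G (f u * J))
    rw [← h1]
    refine Finset.sum_congr rfl fun u _ => ?_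
    simp only [Equiv.coe_mulLeft, map_mul, hu', mul_assoc]
  have e3 : (Fintype.card (ZMod n)ˣ : ℝ) * ∑ u : (ZMod m)ˣ, G (f u * J) =
      (Fintype.card (ZMod m)ˣ : ℝ) * ∑ w : (ZMod n)ˣ, G w := by
    have h1 : ∑ w' : (ZMod n)ˣ, ∑ u : (ZMod m)ˣ, G (w' * (f u * J)) =
        (Fintype.card (ZMod n)ˣ : ℝ) * ∑ u : (ZMod m)ˣ, G (f u * J) := by
      rw [Finset.sum_congr rfl fun w' _ => e2 w', Finset.sum_const, Finset.card_univ, nsmul_eq_mul]
    have h2 : ∑ w' : (ZMod n)ˣ, ∑ u : (ZMod m)ˣ, G (w' * (f u * J)) =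
        (Fintype.card (ZMod m)ˣ : ℝ) * ∑ w : (ZMod n)ˣ, G w := by
      rw [Finset.sum_comm]
      have h3 : ∀ u : (ZMod m)ˣ, ∑ w' : (ZMod n)ˣ, G (w' * (f u * J)) = ∑ w : (ZMod n)ˣ, G w :=
        fun u => Equiv.sum_comp (Equiv.mulRight (f u * J)) G
      rw [Finset.sum_congr rfl fun u _ => h3 u, Finset.sum_const, Finset.card_univ, nsmul_eq_mul]
    rw [← h1, h2]
  rw [e1, ← ZMod.card_units_eq_totient n, ← ZMod.card_units_eq_totient m, e3]
  congr 1
  exact units_sum n (fun j => F ((q * j : ℕ) : ZMod m))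

end Pool.Agent.Helper4.AE
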