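import Pool.Agent.Helper4.AE.M_BU
import Pool.Agent.Helper4.AE.M_UNI
import Pool.Agent.Helper2.AE.M_MOB
import Pool.Agent.Helper2.AE.M_PR
import Pool.Agent.Helper28.AE.M_DIV
import Pool.Agent.Helper42.AE.M_RB
import Pool.Agent.Helper51.AE.M_TRF
import Pool.Agent.Helper60.AE.M_CNT
import Pool.Agent.Helper8.AE.M_PAR
import Pool.Agent.Helper8.AE.M_VB
import Pool.Agent.Helper82.AE.M_INV
import Pool.Agent.Helper84.AE.M_GAP
import Pool.Agent.Helper91.AE.M_SZ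
import Pool.Agent.Helper92.AE.M_VAR

set_option autoImplicit false

/-! Project AE (MP_35947b_nt): assembly (helper4). -/

namespace Pool.Agent.Helper4.AE

open Finset

theorem pMOB : StMOB := Pool.Agent.Helper2.AE.hMOB Pool.Agent.Helper60.AE.hCNT

/-- BU for all `r`. -/
theorem pBU (m : ℕ) [NeZero m] (r : ℕ) (A : Finset (ZMod m)) (ε : ℝ) (hA : Bs r A) (hε : 0 < ε) :
    (((Finset.univ : Finset (ZMod m)ˣ).filter fun u => ε * m ≤ (gap (dil u A) : ℝ)).card : ℝ) ≤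
    8 * Real.sqrt r * (m.divisors.card : ℝ) ^ 3 / (ε ^ 2 * Real.sqrt m) * Nat.totient m :=
  hBU Pool.Agent.Helper8.AE.hVB Pool.Agent.Helper84.AE.hGAP Pool.Agent.Helper91.AE.hSZ
    Pool.Agent.Helper92.AE.hVAR hUNI pMOB Pool.Agent.Helper91.AE.hPHI Pool.Agent.Helper2.AE.hPR
    m r A ε hA hε

theorem pRB (m : ℕ) [NeZero m] : Rz m ≤ 11664 ∧ ∃ A : Finset (ZMod m), Bs (Rz m) A :=
  Pool.Agent.Helper42.AE.hRB Pool.Agent.Helper51.AE.hTRF Pool.Agent.Helper8.AE.hPAR m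

/-- the general bound: every `A` with `1 ≤ σ_A ≤ r` -/
theorem general (δ : ℝ) (hδ : 0 < δ) : ∃ C : ℝ, 0 < C ∧ ∀ (m : ℕ) [NeZero m] (r : ℕ)
    (A : Finset (ZMod m)) (ε : ℝ), Bs r A → 0 < ε →
    (((Finset.univ : Finset (ZMod m)ˣ).filter fun u => ε * m ≤ (gap (dil u A) : ℝ)).card : ℝ) ≤
      C * Real.sqrt r * (m : ℝ) ^ (δ - 1 / 2) / ε ^ 2 * Nat.totient m := by
  obtain ⟨C1, hC1, hdiv⟩ := Pool.Agent.Helper28.AE.hDIV (δ / 3) (by positivity)
  refine ⟨8 * C1 ^ 3, by positivity, ?_⟩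
  intro m _ r A ε hA hε
  have hm : 0 < m := Nat.pos_of_ne_zero (NeZero.ne m)
  have hmR : (0 : ℝ) < m := by exact_mod_cast hm
  refine (pBU m r A ε hA hε).trans ?_
  have htot : (0 : ℝ) ≤ Nat.totient m := Nat.cast_nonneg _
  refine mul_le_mul_of_nonneg_right ?_ htot
  have h1 : (m.divisors.card : ℝ) ^ 3 ≤ C1 ^ 3 * (m : ℝ) ^ δ := by
    have h2 := hdiv m hm
    have h0 : (0 : ℝ) ≤ m.divisors.card := Nat.cast_nonneg _
    calc (m.divisors.card : ℝ) ^ 3 ≤ (C1 * (m : ℝ) ^ (δ / 3)) ^ 3 := pow_le_pow_left₀ h0 h2 3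
      _ = C1 ^ 3 * ((m : ℝ) ^ (δ / 3)) ^ 3 := by ring
      _ = C1 ^ 3 * (m : ℝ) ^ δ := by
        congr 1
        rw [← Real.rpow_natCast ((m : ℝ) ^ (δ / 3)) 3, ← Real.rpow_mul hmR.le]
        congr 1
        push_cast
        ring
  have h3 : (m : ℝ) ^ (δ - 1 / 2) = (m : ℝ) ^ δ / Real.sqrt m := by
    rw [Real.rpow_sub hmR, Real.sqrt_eq_rpow]
  have hsq : 0 < Real.sqrt m := Real.sqrt_pos.mpr hmR
  have hr0 : 0 ≤ Real.sqrt r := Real.sqrt_nonneg _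
  rw [h3]
  calc 8 * Real.sqrt r * (m.divisors.card : ℝ) ^ 3 / (ε ^ 2 * Real.sqrt m)
      ≤ 8 * Real.sqrt r * (C1 ^ 3 * (m : ℝ) ^ δ) / (ε ^ 2 * Real.sqrt m) := by
        apply div_le_div_of_nonneg_right _ (by positivity)
        exact mul_le_mul_of_nonneg_left h1 (by positivity)
    _ = 8 * C1 ^ 3 * Real.sqrt r * ((m : ℝ) ^ δ / Real.sqrt m) / ε ^ 2 := by
        field_simp

theorem hFIN : StFIN := by
  intro δ hδ
  obtain ⟨C, hC, hgen⟩ := general δ hδ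
  refine ⟨C * Real.sqrt 11664, by positivity, ?_⟩
  intro m _ ε hε
  have hm : 0 < m := Nat.pos_of_ne_zero (NeZero.ne m)
  have hmR : (0 : ℝ) < m := by exact_mod_cast hm
  obtain ⟨hRz, A0, hA0⟩ := pRB m
  have hmem : ∀ A : Finset (ZMod m), A ∈ Fam m ↔ Bs (Rz m) A := by
    intro A
    simp [Fam]
  have hb : ∀ A ∈ Fam m,
      (((Finset.univ : Finset (ZMod m)ˣ).filter fun u => ε * m ≤ (gap (dil u A) : ℝ)).card : ℝ) ≤
      C * Real.sqrt 11664 * (m : ℝ) ^ (δ - 1 / 2) / ε ^ 2 * Nat.totient m := by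
    intro A hA
    refine (hgen m (Rz m) A ε ((hmem A).1 hA) hε).trans ?_
    have h1 : Real.sqrt (Rz m) ≤ Real.sqrt 11664 := Real.sqrt_le_sqrt (by exact_mod_cast hRz)
    have htot : (0 : ℝ) ≤ Nat.totient m := Nat.cast_nonneg _
    refine mul_le_mul_of_nonneg_right ?_ htot
    apply div_le_div_of_nonneg_right _ (by positivity)
    apply mul_le_mul_of_nonneg_right _ (by positivity)
    exact mul_le_mul_of_nonneg_left h1 hC.le
  refine ⟨⟨A0, (hmem A0).2 hA0⟩, ?_, ?_⟩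
  · intro A hA
    refine ⟨?_, hb A hA⟩
    intro u
    rw [hmem] at hA ⊢
    exact (Pool.Agent.Helper82.AE.hINV m (fun _ => True)).1 (Rz m) u A hA
  · classical
    have h2 := (Pool.Agent.Helper82.AE.hINV m (fun B => ε * m ≤ (gap B : ℝ))).2
    have h3 : ((∑ A ∈ Fam m, ((Finset.univ : Finset (ZMod m)ˣ).filter
        fun u => ε * m ≤ (gap (dil u A) : ℝ)).card : ℕ) : ℝ) ≤
        (Fam m).card * (C * Real.sqrt 11664 * (m : ℝ) ^ (δ - 1 / 2) / ε ^ 2 * Nat.totient m) := by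
      push_cast
      calc _ ≤ ∑ A ∈ Fam m, (C * Real.sqrt 11664 * (m : ℝ) ^ (δ - 1 / 2) / ε ^ 2
              * Nat.totient m) := by
            apply Finset.sum_le_sum
            intro A hA
            convert hb A hA
        _ = _ := by rw [Finset.sum_const, nsmul_eq_mul]
    have h4 : (0 : ℝ) < Nat.totient m := by exact_mod_cast Nat.totient_pos.mpr hm
    have h5 : (Nat.totient m : ℝ) * ((((Fam m).filter fun A => ε * m ≤ (gap A : ℝ)).card : ℕ) : ℝ) ≤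
        (Fam m).card * (C * Real.sqrt 11664 * (m : ℝ) ^ (δ - 1 / 2) / ε ^ 2 * Nat.totient m) := by
      refine le_trans (le_of_eq ?_) h3
      rw [← Nat.cast_mul]
      congr 1
      rw [← h2] 
    have h6 : (Nat.totient m : ℝ) * ((((Fam m).filter fun A => ε * m ≤ (gap A : ℝ)).card : ℕ) : ℝ) ≤
        Nat.totient m * (C * Real.sqrt 11664 * (m : ℝ) ^ (δ - 1 / 2) / ε ^ 2 * (Fam m).card) := by
      refine h5.trans (le_of_eq ?_)
      ring
    exact le_of_mul_le_mul_left h6 h4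

end Pool.Agent.Helper4.AE
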