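import Mathlib

/-!
# Project AE (MP_35947b_nt): largest gaps of almost all optimal bases modulo `m`

Definitions.
-/

set_option autoImplicit false

namespace Pool.Agent.Helper4.AE

open Finset

/-- the number of representations of `n` as an ordered sum of two elements of `A` -/
def sg {m : ℕ} (A : Finset (ZMod m)) (n : ZMod m) : ℕ :=
  ((A ×ˢ A).filter fun p => p.1 + p.2 = n).card

/-- every residue class has at least one and at most `r` representations -/
def Bs {m : ℕ} (r : ℕ) (A : Finset (ZMod m)) : Prop := ∀ n, 1 ≤ sg A n ∧ sg A n ≤ r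

/-- the Ruzsa number `R_m` -/
noncomputable def Rz (m : ℕ) : ℕ := sInf {r : ℕ | ∃ A : Finset (ZMod m), Bs r A}

open Classical in
/-- the family of the optimal bases modulo `m` -/
noncomputable def Fam (m : ℕ) [NeZero m] : Finset (Finset (ZMod m)) :=
  Finset.univ.filter fun A => Bs (Rz m) A

/-- the largest cyclic gap: the largest `g ≤ m` such that `a + 1, ..., a + (g - 1)` are not in `A` for
some `a ∈ A` -/
noncomputable def gap {m : ℕ} (A : Finset (ZMod m)) : ℕ :=
  sSup {g : ℕ | g ≤ m ∧ ∃ a ∈ A, ∀ i : ℕ, 0 < i → i < g → a + (i : ZMod m) ∉ A}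

/-- the dilate `u A` -/
def dil {m : ℕ} (u : (ZMod m)ˣ) (A : Finset (ZMod m)) : Finset (ZMod m) :=
  A.image fun a => (u : ZMod m) * a

/-- the number of pairs `(i, j)`, `0 ≤ i, j < h`, with `i - j = d` modulo `m` -/
def TT (m h : ℕ) (d : ZMod m) : ℕ :=
  ((range h ×ˢ range h).filter fun p => (p.1 : ZMod m) - (p.2 : ZMod m) = d).card

/-- the number of elements of `A` in the interval `v, v + 1, ..., v + (h - 1)` (with multiplicity, if
`h > m`) -/
def Nn {m : ℕ} (A : Finset (ZMod m)) (h : ℕ) (v : ZMod m) : ℕ :=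
  ((A ×ˢ range h).filter fun p => p.1 = v + (p.2 : ZMod m)).card

end Pool.Agent.Helper4.AE
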