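import Pool.Agent.Helper4.AE.St

/-!
# Project AE: module BU (number of bad units)
-/

set_option autoImplicit false

namespace Pool.Agent.Helper4.AE

open Finset

theorem dil_card {m : ℕ} (u : (ZMod m)ˣ) (A : Finset (ZMod m)) : (dil u A).card = A.card := by
  unfold dil
  apply Finset.card_image_of_injective
  intro a b h
  exact (Units.mul_right_inj u).1 h

theorem gap_le {m : ℕ} (B : Finset (ZMod m)) : gap B ≤ m := by
  unfold gap
  apply csSup_le'
  rintro g ⟨hg, -⟩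
  exact hg

theorem hBU : StBU := by
  intro hVB hGAP hSZ hVAR hUNI hMOB hPHI hPR m _ r A ε hA hε
  have hm0 : 0 < m := Nat.pos_of_ne_zero (NeZero.ne m)
  have hmR : (1 : ℝ) ≤ m := by exact_mod_cast hm0
  have hmR0 : (0 : ℝ) < m := by linarith
  have hk2 := hSZ m r A hA
  have hk0 : 0 < A.card := by
    rcases Nat.eq_zero_or_pos A.card with h | h
    · rw [h] at hk2
      omega
    · exact h
  have hkR : (0 : ℝ) < A.card := by exact_mod_cast hk0
  have hk2R : (m : ℝ) ≤ (A.card : ℝ) ^ 2 := by exact_mod_cast hk2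
  have hsk : Real.sqrt m ≤ A.card := by
    rw [Real.sqrt_le_left hkR.le]
    exact hk2R
  have hs0 : 0 < Real.sqrt m := Real.sqrt_pos.2 hmR0
  have hr1 : 1 ≤ r := by
    have h := hA 0
    omega
  have hsr : 1 ≤ Real.sqrt r := by
    rw [Real.one_le_sqrt]
    exact_mod_cast hr1
  have hτ1 : (1 : ℝ) ≤ m.divisors.card := by
    have : 0 < m.divisors.card := Finset.card_pos.2 ⟨1, Nat.one_mem_divisors.2 hm0.ne'⟩
    exact_mod_cast this
  have hτ3 : (1 : ℝ) ≤ (m.divisors.card : ℝ) ^ 3 := one_le_pow₀ hτ1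
  have hφ0 : (0 : ℝ) ≤ Nat.totient m := Nat.cast_nonneg _
  set bad := (Finset.univ : Finset (ZMod m)ˣ).filter fun u => ε * m ≤ (gap (dil u A) : ℝ) with hbad
  obtain ⟨g, hg⟩ : ∃ g, g = ⌈ε * m⌉₊ := ⟨_, rfl⟩
  have hεm : 0 < ε * m := mul_pos hε hmR0
  have hg1 : 1 ≤ g := by
    rw [hg]
    exact Nat.ceil_pos.2 hεm
  have hgm : ε * m ≤ g := by rw [hg]; exact Nat.le_ceil _
  have hden : 0 < ε ^ 2 * Real.sqrt m := by positivity
  rcases Nat.lt_or_ge g 2 with hg2 | hg2
  · -- trivial case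
    have hem1 : ε * m ≤ 1 := by
      have : g = 1 := by omega
      rw [this] at hgm
      simpa using hgm
    have h1 : (bad.card : ℝ) ≤ Nat.totient m := by
      have h2 : bad.card ≤ Fintype.card (ZMod m)ˣ := Finset.card_le_univ _
      rw [ZMod.card_units_eq_totient] at h2
      exact_mod_cast h2
    have h2 : ε ^ 2 * Real.sqrt m ≤ 1 := by
      have h3 : Real.sqrt m ≤ (m : ℝ) ^ 2 := by
        rw [Real.sqrt_le_left (by positivity)]
        have : (1 : ℝ) ≤ (m : ℝ) ^ 3 := one_le_pow₀ hmR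
        nlinarith
      calc ε ^ 2 * Real.sqrt m ≤ ε ^ 2 * (m : ℝ) ^ 2 := mul_le_mul_of_nonneg_left h3 (by positivity)
        _ = (ε * m) ^ 2 := by ring
        _ ≤ 1 := pow_le_one₀ hεm.le hem1
    have h3 : 1 ≤ 8 * Real.sqrt r * (m.divisors.card : ℝ) ^ 3 / (ε ^ 2 * Real.sqrt m) := by
      rw [le_div_iff₀ hden, one_mul]
      have h4 : 1 ≤ Real.sqrt r * (m.divisors.card : ℝ) ^ 3 := by nlinarith
      linarith
    calc (bad.card : ℝ) ≤ 1 * Nat.totient m := by rw [one_mul]; exact h1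
      _ ≤ _ := mul_le_mul_of_nonneg_right h3 hφ0
  · obtain ⟨h, hh⟩ : ∃ h, h = (g + 1) / 2 := ⟨_, rfl⟩
    have hhg : h ≤ g := by omega
    have hh1 : 1 ≤ h := by omega
    have hhR : (1 : ℝ) ≤ h := by exact_mod_cast hh1
    have hprod : (g : ℝ) ^ 2 / 8 ≤ ((g : ℝ) - h) * h := by
      have h1 : g * g ≤ 8 * ((g - h) * h) := by
        rcases Nat.even_or_odd' g with ⟨c, hc | hc⟩
        · have h2 : h = c := by omega
          have h3 : g - h = c := by omega
          rw [h2, hc]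
          have h4 : 2 * c - c = c := by omega
          rw [h4]
          nlinarith
        · have h2 : h = c + 1 := by omega
          have h3 : g - h = c := by omega
          have hc1 : 1 ≤ c := by omega
          rw [h3, h2, hc]
          nlinarith
      have h2 : ((g - h : ℕ) : ℝ) = (g : ℝ) - h := by rw [Nat.cast_sub hhg]
      have h3 : (g : ℝ) * g ≤ 8 * (((g - h : ℕ) : ℝ) * h) := by exact_mod_cast h1
      rw [h2] at h3
      nlinarith
    set W : (ZMod m)ˣ → ℝ := fun u =>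
      (∑ v : ZMod m, (Nn (dil u A) h v : ℝ) ^ 2) - (A.card : ℝ) ^ 2 * (h : ℝ) ^ 2 / m with hW
    have hVBA := hVB hVAR hUNI hMOB hPHI hPR m r h A hA
    have hne : ∀ u : (ZMod m)ˣ, (dil u A).Nonempty := by
      intro u
      rw [← Finset.card_pos, dil_card]
      exact hk0
    have hW0 : ∀ u, 0 ≤ W u := by
      intro u
      have h1 := (hGAP hVAR m (dil u A) g h (hne u)).2
      rw [dil_card] at h1
      exact h1
    obtain ⟨c, hc⟩ : ∃ c : ℝ, c = ((g : ℝ) - h) * ((A.card : ℝ) * h / m) ^ 2 := ⟨_, rfl⟩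
    have hWb : ∀ u ∈ bad, c ≤ W u := by
      intro u hu
      rw [hbad, Finset.mem_filter] at hu
      have h1 : g ≤ gap (dil u A) := by
        rw [hg, Nat.ceil_le]
        exact hu.2
      have h2 := (hGAP hVAR m (dil u A) g h (hne u)).1 h1 hhg
      rw [dil_card] at h2
      rw [hc]
      exact h2
    have hsum : (bad.card : ℝ) * c ≤ (Nat.totient m : ℝ) * h * A.card * Real.sqrt r * (m.divisors.card : ℝ) ^ 3 := by
      calc (bad.card : ℝ) * c = ∑ u ∈ bad, c := by rw [Finset.sum_const, nsmul_eq_mul]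
        _ ≤ ∑ u ∈ bad, W u := Finset.sum_le_sum hWb
        _ ≤ ∑ u, W u := Finset.sum_le_sum_of_subset_of_nonneg (Finset.subset_univ _) fun u _ _ => hW0 u
        _ ≤ _ := hVBA
    -- divide by h * k / m ^ 2
    have hstep : (bad.card : ℝ) * (((g : ℝ) - h) * h * A.card) ≤
        (Nat.totient m : ℝ) * Real.sqrt r * (m.divisors.card : ℝ) ^ 3 * (m : ℝ) ^ 2 := by
      have hpos : 0 < (h : ℝ) * A.card / (m : ℝ) ^ 2 := by positivity
      have e1 : (bad.card : ℝ) * c = (bad.card : ℝ) * (((g : ℝ) - h) * h * A.card) * ((h : ℝ) * A.card / (m : ℝ) ^ 2) := by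
        rw [hc]
        ring
      have e2 : (Nat.totient m : ℝ) * h * A.card * Real.sqrt r * (m.divisors.card : ℝ) ^ 3 =
          (Nat.totient m : ℝ) * Real.sqrt r * (m.divisors.card : ℝ) ^ 3 * (m : ℝ) ^ 2 *
            ((h : ℝ) * A.card / (m : ℝ) ^ 2) := by
        field_simp
      rw [e1, e2] at hsum
      exact le_of_mul_le_mul_right hsum hpos
    have hlow : ε ^ 2 * (m : ℝ) ^ 2 / 8 * Real.sqrt m ≤ ((g : ℝ) - h) * h * A.card := by
      have h1 : ε ^ 2 * (m : ℝ) ^ 2 ≤ (g : ℝ) ^ 2 := by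
        calc ε ^ 2 * (m : ℝ) ^ 2 = (ε * m) ^ 2 := by ring
          _ ≤ (g : ℝ) ^ 2 := pow_le_pow_left₀ hεm.le hgm 2
      have h2 : ε ^ 2 * (m : ℝ) ^ 2 / 8 ≤ ((g : ℝ) - h) * h := by linarith
      have h3 : 0 ≤ ε ^ 2 * (m : ℝ) ^ 2 / 8 := by positivity
      exact mul_le_mul h2 hsk hs0.le (le_trans h3 h2)
    have hfin : (bad.card : ℝ) * (ε ^ 2 * Real.sqrt m) ≤ 8 * Real.sqrt r * (m.divisors.card : ℝ) ^ 3 * Nat.totient m := by
      have h1 : (bad.card : ℝ) * (ε ^ 2 * (m : ℝ) ^ 2 / 8 * Real.sqrt m) ≤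
          (Nat.totient m : ℝ) * Real.sqrt r * (m.divisors.card : ℝ) ^ 3 * (m : ℝ) ^ 2 :=
        le_trans (mul_le_mul_of_nonneg_left hlow (Nat.cast_nonneg _)) hstep
      have hpos : 0 < (m : ℝ) ^ 2 / 8 := by positivity
      have e1 : (bad.card : ℝ) * (ε ^ 2 * (m : ℝ) ^ 2 / 8 * Real.sqrt m) =
          (bad.card : ℝ) * (ε ^ 2 * Real.sqrt m) * ((m : ℝ) ^ 2 / 8) := by ring
      have e2 : (Nat.totient m : ℝ) * Real.sqrt r * (m.divisors.card : ℝ) ^ 3 * (m : ℝ) ^ 2 =
          8 * Real.sqrt r * (m.divisors.card : ℝ) ^ 3 * Nat.totient m * ((m : ℝ) ^ 2 / 8) := by ring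
      rw [e1, e2] at h1
      exact le_of_mul_le_mul_right h1 hpos
    rw [div_mul_eq_mul_div, le_div_iff₀ hden]
    exact hfin

end Pool.Agent.Helper4.AE
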