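import Pool.Agent.Helper4.AE.Defs

/-!
# Project AE (MP_35947b_nt): statements of the modules, with complete proofs in the docstrings

THEOREM.  For every `δ > 0` there is `C` such that for all `m ≥ 1`, `ε > 0`:
(1) for EVERY optimal basis `A` modulo `m` at most `C m^(δ - 1/2) ε^(-2) φ(m)` of the dilates `u A`, `u` a unit (they
are optimal bases, too) have a cyclic gap `≥ ε m`; (2) at most `C m^(δ - 1/2) ε^(-2) |Fam m|` of the optimal bases have a
cyclic gap `≥ ε m`.  In particular almost all optimal bases have largest gap at most `m^(3/4 + δ)`.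

IDEA.  `σ_A ≤ R` implies that `A` has at most `√(R n)` elements in every coset of the subgroup of order `n`; so the second
moment of the number of elements of `u A` in a random interval, over all units `u`, is `h m^o(1) |A|`.
-/

set_option autoImplicit false

namespace Pool.Agent.Helper4.AE

open Finset

/-- VAR (first and second moment, 60 lines).
PROOF.  `∑ v, Nn A h v` is the number of the pairs `(a, i)` (`v = a - i` is determined).  `Nn A h v ^ 2` is the number of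
the quadruples `(a, i), (a', i')` with `a - i = v = a' - i'`; the sum over `v` is the number of quadruples with
`a - i = a' - i'`, i.e. `i - i' = a - a'`. -/
def StVAR : Prop := ∀ (m : ℕ) [NeZero m] (A : Finset (ZMod m)) (h : ℕ),
  ∑ v : ZMod m, Nn A h v = A.card * h ∧
  ∑ v : ZMod m, Nn A h v ^ 2 = ∑ a ∈ A, ∑ a' ∈ A, TT m h (a - a')

/-- CNT (counting congruent pairs, 60 lines).
PROOF.  Upper bound: for every `i` the number of `j < h` with `j ≡ i` modulo `q` is at most `h / q + 1`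
(`Nat.count_modEq_card` or inject `j ↦ j / q`).  Lower bound: let `c r` be the number of `i < h` with `i ≡ r`
modulo `q`; the number of pairs is `∑ r, c r ^ 2 ≥ (∑ r, c r)^2 / q = h^2 / q` (Cauchy-Schwarz,
`inner_mul_le_norm_mul_norm` or `sq_sum_le_card_mul_sum_sq`). -/
def StCNT : Prop := ∀ (q h : ℕ), 1 ≤ q →
  (h : ℝ) ^ 2 / q ≤ (((range h ×ˢ range h).filter fun p => (q : ℤ) ∣ (p.1 : ℤ) - (p.2 : ℤ)).card : ℝ) ∧
  (((range h ×ˢ range h).filter fun p => (q : ℤ) ∣ (p.1 : ℤ) - (p.2 : ℤ)).card : ℝ) ≤ (h : ℝ) ^ 2 / q + h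

/-- UNI (averaging over the units, 90 lines).
PROOF.  Write `n = addOrderOf d`, `n q = m` (`n ∣ m`).  `n • d = 0` gives `d = q j₀` for some `j₀ : ℕ` (`m ∣ n * d.val`,
so `q ∣ d.val`), and `j₀` is coprime to `n` (a common divisor `g` gives `(n/g) • d = 0`).  `u d = q (u j₀)` depends only on the
image of `u` in `(ZMod n)ˣ`: if `w = ZMod.unitsMap u` then `u * d = ((q * (w * j₀ : ZMod n).val : ℕ) : ZMod m)` (both sides: `x ≡ y`
modulo `n` implies `q x ≡ q y` modulo `m`).  `ZMod.unitsMap` is surjective (`ZMod.unitsMap_surjective`), all its fibres have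
the same number `φ(m)/φ(n)` of elements (`MonoidHom.card_fiber_eq_of_mem_range`), and `w ↦ (w * j₀).val` is a bijection
from `(ZMod n)ˣ` onto the numbers `j < n` coprime to `n`.  So
`φ(n) ∑_u F (u d) = φ(n) (φ(m)/φ(n)) ∑_j F (q j)`. -/
def StUNI : Prop := ∀ (m : ℕ) [NeZero m] (d : ZMod m) (q : ℕ) (F : ZMod m → ℝ), addOrderOf d * q = m →
  (Nat.totient (addOrderOf d) : ℝ) * ∑ u : (ZMod m)ˣ, F ((u : ZMod m) * d) =
    (Nat.totient m : ℝ) * ∑ j ∈ (range (addOrderOf d)).filter (fun j => Nat.Coprime j (addOrderOf d)),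
      F ((q * j : ℕ) : ZMod m)

/-- MOB (Moebius inversion, 120 lines; uses CNT).
PROOF.  For `(i, i')` with `i - i' ≡ q j` modulo `m = n q`: `q ∣ i - i'`, and `j` is the residue of `(i - i')/q` modulo `n`.  So the
left side is the number of the pairs `(i, i')` with `q ∣ i - i'` and `(i - i')/q` coprime to `n` (`0` is allowed if
`n = 1`).  The indicator of coprimality is `∑ (e ∣ n, e ∣ (i - i')/q) μ(e)` (`ArithmeticFunction.sum_moebius...`,
`Nat.gcd ((i-i')/q).natAbs n`), so it is `∑_(e ∣ n) μ(e) c(q e)`, where `c(t)` is the number of pairs with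
`t ∣ i - i'`.  By CNT `μ(e) c(q e) ≤ μ(e) h^2/(q e) + h` in all cases (`μ(e) ∈ {0, 1, -1}`).  Sum:
`(h^2/q) ∑_(e ∣ n) μ(e)/e + h τ(n)`, and `∑_(e ∣ n) μ(e)/e = φ(n)/n` (Moebius inversion of `Nat.sum_totient`), `q n = m`. -/
def StMOB : Prop := ∀ (m n q h : ℕ), 1 ≤ n → 1 ≤ q → n * q = m →
  (∑ j ∈ (range n).filter (fun j => Nat.Coprime j n), (TT m h ((q * j : ℕ) : ZMod m) : ℝ)) ≤
    (Nat.totient n : ℝ) * ((h : ℝ) ^ 2 / m) + h * n.divisors.card

/-- PHI (10 lines).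
PROOF.  `n = ∑_(d ∣ n) φ(d) ≤ τ(n) φ(n)` (`Nat.sum_totient`, `φ(d) ∣ φ(n)`: `Nat.totient_dvd_of_dvd`). -/
def StPHI : Prop := ∀ n : ℕ, 1 ≤ n → n ≤ Nat.totient n * n.divisors.card

/-- PR (pairs with a difference of small order, 60 lines).
PROOF.  For `a ∈ A` let `C = {a' ∈ A : n • (a - a') = 0}`.  For `x, y ∈ C`: `n • (x + y - 2 a) = 0`, so `x + y` is in the set
`{s : n • (s - 2 a) = 0}`, which has at most `n` elements (`card_nsmul_eq_zero_le`, `IsAddCyclic`; or: `n ∣ m` and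
the multiples of `m/n`).  Every `s` has at most `r` representations, so `|C|^2 ≤ r n`, `|C| ≤ √(r n)`.  Sum over `a`. -/
def StPR : Prop := ∀ (m : ℕ) [NeZero m] (r n : ℕ) (A : Finset (ZMod m)), Bs r A → 1 ≤ n → n ∣ m →
  (((A ×ˢ A).filter fun p => addOrderOf (p.1 - p.2) = n).card : ℝ) ≤ A.card * Real.sqrt (r * n)

/-- VB (bound for the variance, 120 lines; uses VAR, UNI, MOB, PHI, PR).
PROOF.  `dil u A` has the elements `u a` (`a ↦ u a` is injective), so by VAR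
`∑ v, Nn (dil u A) h v ^ 2 = ∑_(a, a' ∈ A) TT m h (u (a - a'))`.  Let `n = addOrderOf (a - a')`, `n q = m`.  UNI and MOB:
`∑_u TT m h (u (a - a')) ≤ φ(m) h^2/m + φ(m) h τ(n)/φ(n) ≤ φ(m) h^2/m + φ(m) h τ(n)^2/n` (PHI: `1/φ(n) ≤ τ(n)/n`).  Sum over the
pairs: the main terms give `|A|^2 φ(m) h^2/m`; group the rest by `n ∣ m` (PR): at most
`∑_(n ∣ m) |A| √(r n) φ(m) h τ(n)^2/n ≤ φ(m) h |A| √r ∑_(n ∣ m) τ(m)^2 = φ(m) h |A| √r τ(m)^3`
(`√n/n ≤ 1`, `τ(n) ≤ τ(m)`: `Nat.divisors_subset_of_dvd`). -/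
def StVB : Prop := StVAR → StUNI → StMOB → StPHI → StPR →
  ∀ (m : ℕ) [NeZero m] (r h : ℕ) (A : Finset (ZMod m)), Bs r A →
  ∑ u : (ZMod m)ˣ, ((∑ v : ZMod m, (Nn (dil u A) h v : ℝ) ^ 2) - (A.card : ℝ) ^ 2 * (h : ℝ) ^ 2 / m) ≤
    (Nat.totient m : ℝ) * h * A.card * Real.sqrt r * (m.divisors.card : ℝ) ^ 3

/-- GAP (a gap makes the variance large, 80 lines; uses VAR).
PROOF.  `∑ v (Nn B h v - k h/m)^2 = ∑ v Nn^2 - k^2 h^2/m` by VAR (first moment; `k = |B|`, `card (ZMod m) = m`): this is `≥ 0`, the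
second claim.  First claim: from `g ≤ gap B` (the supremum of a bounded nonempty set of naturals is attained:
`Nat.sSup_mem`; the condition for `gap B` implies the condition for `g`) we have `a ∈ B` with `a + i ∉ B` for `0 < i < g`,
`g ≤ m`.  For `0 ≤ t < g - h` and `v = a + 1 + t`: `Nn B h v = 0`, since `v + j = a + (1 + t + j)`, `0 < 1 + t + j < g`.  These `g - h` classes
`v` are different (`g - h ≤ m`), each contributes `(k h/m)^2`. -/
def StGAP : Prop := StVAR → ∀ (m : ℕ) [NeZero m] (B : Finset (ZMod m)) (g h : ℕ), B.Nonempty →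
  (g ≤ gap B → h ≤ g → ((g : ℝ) - h) * ((B.card : ℝ) * h / m) ^ 2 ≤
    (∑ v : ZMod m, (Nn B h v : ℝ) ^ 2) - (B.card : ℝ) ^ 2 * (h : ℝ) ^ 2 / m) ∧
  0 ≤ (∑ v : ZMod m, (Nn B h v : ℝ) ^ 2) - (B.card : ℝ) ^ 2 * (h : ℝ) ^ 2 / m

/-- SZ (20 lines).
PROOF.  `∑_n sg A n = |A|^2` and every term is at least one. -/
def StSZ : Prop := ∀ (m : ℕ) [NeZero m] (r : ℕ) (A : Finset (ZMod m)), Bs r A → m ≤ A.card ^ 2

/-- BU (number of bad units, 100 lines; uses VB, GAP, SZ).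
PROOF.  `k = |A| = |dil u A|`, `k ≥ √m > 0` (SZ).  `g := ⌈ε m⌉₊ ≥ 1`; `ε m ≤ gap B ↔ g ≤ gap B`.  If `g = 1` then `ε m ≤ 1`, so
`√m ε^2 ≤ √m/m^2 ≤ 1` and the right side is at least `8 φ(m)` (`r ≥ 1`, `τ(m) ≥ 1`), the left side is at most the number
`φ(m)` of all units.  If `g > m` the left side is `0` (`gap B ≤ m`).  Let `2 ≤ g ≤ m`, `h := (g + 1) / 2`, so
`(g - h) h ≥ g^2/8 ≥ ε^2 m^2/8` and `h ≥ 1`, `g - h ≥ 1`.  By GAP every bad unit contributes at least `(g - h)(k h/m)^2` to the sum in VB, the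
others contribute at least `0`.  So
`#bad ≤ φ(m) h k √r τ(m)^3 m^2/((g - h) k^2 h^2) = φ(m) √r τ(m)^3 m^2/((g - h) h k) ≤ 8 φ(m) √r τ(m)^3/(ε^2 √m)`. -/
def StBU : Prop := StVB → StGAP → StSZ → StVAR → StUNI → StMOB → StPHI → StPR →
  ∀ (m : ℕ) [NeZero m] (r : ℕ) (A : Finset (ZMod m)) (ε : ℝ), Bs r A → 0 < ε →
  (((Finset.univ : Finset (ZMod m)ˣ).filter fun u => ε * m ≤ (gap (dil u A) : ℝ)).card : ℝ) ≤
    8 * Real.sqrt r * (m.divisors.card : ℝ) ^ 3 / (ε ^ 2 * Real.sqrt m) * Nat.totient m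

/-- DIV (the divisor bound, 60 lines; perhaps already in the library of the team).
PROOF.  `τ(m) = ∏_p (a_p + 1)`, `m = ∏ p^(a_p)`.  For `p ≥ 2^(1/δ)`: `a + 1 ≤ 2^a ≤ p^(δ a)`.  For `p < 2^(1/δ)`:
`a + 1 ≤ (1 + 1/(δ log 2)) p^(δ a)` since `p^(δ a) ≥ 1 + δ a log 2`.  So `C = (1 + 1/(δ log 2))^(2^(1/δ))`. -/
def StDIV : Prop := ∀ δ : ℝ, 0 < δ → ∃ C : ℝ, 0 < C ∧ ∀ m : ℕ, 1 ≤ m →
  (m.divisors.card : ℝ) ≤ C * (m : ℝ) ^ δ

/-- PAR (Ruzsa's parabolas, 120 lines).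
PROOF.  `F = ZMod p`.  Let `n₀` be a non-square (`FiniteField.exists_nonsquare`); the four non-squares `n₀, 4 n₀, 9 n₀, 16 n₀` are
different (`p ≥ 11` divides none of `3, 8, 15, 5, 12, 7`), so one of them, `n`, is not in `{-1, -3, -1/3}`; `n ≠ 0`.  `K = {2, 1 + n, 1 + 1/n}`,
`B = {(x, k x^2) : x ∈ F, k ∈ K}`.  For `k, l ∈ K`: `k + l ≠ 0` (the values are `4, 2(1+n), 2(1+1/n), 3+n, 3+1/n, (n+1)^2/n`).
Upper bound: a representation `(s, t) = (x, k x^2) + (y, l y^2)` gives `y = s - x` and `(k + l) x^2 - 2 l s x + l s^2 - t = 0`, at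
most two `x` for each of the 9 pairs `(k, l)`, and `k, l, x` determine the representation.  Lower bound: a quarter of the
discriminant is `(k + l) t - k l s^2`.  `k = l = 2`: `4 (t - s^2)`; `k = 1 + n, l = 1 + 1/n`: `k + l = k l = (n+1)^2/n`, so it
is `((n+1)^2/n) (t - s^2)`.  If `t - s^2` is a square the first equation has a solution; if not, then `(t - s^2)/n = n (t - s^2)/n^2`
is a square (the product of two non-squares is a square), so the second one has. -/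
def StPAR : Prop := ∀ p : ℕ, p.Prime → 11 ≤ p → ∃ B : Finset (ZMod p × ZMod p), ∀ z : ZMod p × ZMod p,
  1 ≤ ((B ×ˢ B).filter fun q => q.1 + q.2 = z).card ∧ ((B ×ˢ B).filter fun q => q.1 + q.2 = z).card ≤ 18

/-- TRF (transfer to `ZMod m`, 150 lines; uses PAR).
PROOF.  `S = {x + 2 p y : (x, y) ∈ B}` (integers, `0 ≤ x, y < p`: `x = z.1.val`, `y = z.2.val`), `D = {p α + 2 p^2 β : α, β ∈ {-1, 0, 1}}`, and
`A` = the set of the residues modulo `m` of `s + d`, `s ∈ S`, `d ∈ D`.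
Lower bound: every class modulo `m ≤ 4 p^2` has a representative `N = s₀ + 2 p t₀`, `0 ≤ s₀, t₀ < 2 p`.  PAR for `(s₀, t₀)` modulo `p` gives
`(x, y), (x', y') ∈ B` with `x + x' = s₀ - p α`, `y + y' = t₀ - p β`, and `α, β ∈ {-1, 0, 1}` because both sides are in `[0, 2p)`.  So
`N = (x + 2 p y) + (x' + 2 p y' + (p α + 2 p^2 β))`, both are in `A` (`0 ∈ D`).
Upper bound: a representation of a class `c` in `A + A` gives (choose `s, d, s', d'` for the two elements) `d, d' ∈ D` (81 pairs) and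
`s, s' ∈ S` with `s + s' ≡ c - d - d'` modulo `m`; `0 ≤ s + s' < 4 p^2 ≤ 8 m` (`x + x' ≤ 2 p - 2`, `y + y' ≤ 2 p - 2`), so `s + s'` is one of at most
`8` integers `N`; for each `N` the pair `(x + x', y + y')` is determined (`N = (x + x') + 2 p (y + y')`, `x + x' < 2 p`), so there are at most 18
pairs `(s, s')`.  Total `81 * 8 * 18 = 11664`. -/
def StTRF : Prop := StPAR → ∀ (p m : ℕ) [NeZero m], p.Prime → 11 ≤ p → m ≤ 4 * p ^ 2 → 4 * p ^ 2 ≤ 8 * m →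
  ∃ A : Finset (ZMod m), Bs 11664 A

/-- RB (the Ruzsa numbers are bounded, 60 lines; uses TRF, PAR).
PROOF.  `m < 500`: `A = univ`, `sg A n = m` for all `n`.  `m ≥ 500`: let `n₀` be minimal with `m ≤ 4 n₀^2` (`Nat.find`); `n₀ ≥ 11`,
`4 (n₀ - 1)^2 < m`.  Bertrand (`Nat.exists_prime_lt_and_le_two_mul`) gives a prime `n₀ < p ≤ 2 n₀`; `m ≤ 4 p^2` and
`4 p^2 ≤ 16 n₀^2 ≤ 16 (n₀ - 1)^2 + 32 n₀ ≤ 4 m + 32 n₀ ≤ 8 m` (`8 n₀ ≤ 4 (n₀-1)^2 < m`).  TRF.  In both cases some `Bs r A`, `r ≤ 11664`, so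
`Rz m ≤ r` (`Nat.sInf_le`) and `Rz m` is attained (`Nat.sInf_mem`). -/
def StRB : Prop := StTRF → StPAR → ∀ (m : ℕ) [NeZero m], Rz m ≤ 11664 ∧ ∃ A : Finset (ZMod m), Bs (Rz m) A

/-- INV (invariance and double counting, 70 lines).
PROOF.  `sg (dil u A) (u n) = sg A n` (`(a, a') ↦ (u a, u a')` is a bijection), so `Bs r (dil u A) ↔ Bs r A`; `A ↦ dil u A` is a
bijection of `Fam m` (inverse `dil u⁻¹`).  So `∑_(A ∈ Fam) #{u : P (dil u A)} = ∑_u #{A ∈ Fam : P (dil u A)} = φ(m) #{A ∈ Fam : P A}`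
(`ZMod.card_units_eq_totient`). -/
def StINV : Prop := ∀ (m : ℕ) [NeZero m] (P : Finset (ZMod m) → Prop),
  (∀ (r : ℕ) (u : (ZMod m)ˣ) (A : Finset (ZMod m)), Bs r A → Bs r (dil u A)) ∧
  (open Classical in
    ∑ A ∈ Fam m, ((Finset.univ : Finset (ZMod m)ˣ).filter fun u => P (dil u A)).card =
      Nat.totient m * ((Fam m).filter P).card)

/-- FIN (final theorem, 60 lines; uses all the other statements as hypotheses).
PROOF.  DIV with `δ/3`: `τ(m)^3 ≤ C₁^3 m^δ`.  `C = 8 √11664 C₁^3`.  BU with `r = Rz m ≤ 11664` (RB): the first claim (`1/√m = m^(-1/2)`).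
Second claim: INV with `P B := ε m ≤ gap B`: `φ(m) #{..} = ∑_(A ∈ Fam) #{u : ..} ≤ |Fam| C m^(δ-1/2) ε^(-2) φ(m)`; divide by `φ(m) > 0`. -/
def StFIN : Prop := ∀ δ : ℝ, 0 < δ → ∃ C : ℝ, 0 < C ∧ ∀ (m : ℕ) [NeZero m] (ε : ℝ), 0 < ε →
  (Fam m).Nonempty ∧
  (∀ A ∈ Fam m, (∀ u : (ZMod m)ˣ, dil u A ∈ Fam m) ∧
    (((Finset.univ : Finset (ZMod m)ˣ).filter fun u => ε * m ≤ (gap (dil u A) : ℝ)).card : ℝ) ≤
      C * (m : ℝ) ^ (δ - 1 / 2) / ε ^ 2 * Nat.totient m) ∧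
  (((Fam m).filter fun A => ε * m ≤ (gap A : ℝ)).card : ℝ) ≤ C * (m : ℝ) ^ (δ - 1 / 2) / ε ^ 2 * (Fam m).card

end Pool.Agent.Helper4.AE
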